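import Pool.Agent.MP_92a447_co.H47.Main

namespace Pool.Agent.Results.MP_92a447_co.MatchingComponents

open Pool.Agent.MP_92a447_co.H47

theorem result (V : Type) [Finite V] (G : SimpleGraph V) (pos : V → ℂ) (γ : Sym2 V → ℝ → ℂ)
    (hD : Drawing G pos γ)
    (h : ∀ e f, Relation.TransGen (Cross G pos γ) e f → e ≠ f → ∀ v ∈ e, v ∉ f) :
    ∃ G₁ G₂ : SimpleGraph V, G₁ ⊔ G₂ = G ∧ Disjoint G₁ G₂ ∧ Planar G₁ ∧ Planar G₂ ∧
      ∃ f : V → V, ∀ e ∈ G₂.edgeSet, ∃ v, e = s(v, f v) :=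
  main hD h

end Pool.Agent.Results.MP_92a447_co.MatchingComponents
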